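import Pool.Agent.Work.MP_46fa68_20.Big
import Pool.Agent.Work.MP_46fa68_h48.Small
import Pool.Agent.Work.MP_46fa68_85.NearDiag

/-!
# MP_46fa68_co: an explicit upper bound for `n = 2 t + 1` and `n = 2 t + 2`

From the exact bound `(n - t)!` for `n ≥ 2 t + 3` by fixing `r` positions and counting agreements with
one member: for `r ≤ t ≤ n` and `2 t + 3 ≤ n + r` every `t`-intersecting family `A` of permutations
of `n` points satisfies `C(t, r) |A| ≤ C(n, r) (n - t)!`.
-/

set_option autoImplicit false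

open Finset Equiv

namespace Pool.Agent.Results.MP_46fa68_co.NearDiagonal

/-- The thresholds for all `m ≥ 4`. -/
theorem thr (m : ℕ) (h4 : 4 ≤ m) : Pool.JM.Threshold m := by
  rcases Nat.lt_or_ge m 21 with h | h
  · exact Pool.JM.threshold_small m h4 (by omega)
  · exact Pool.JM.threshold_ge h

/-- The bound for `n ≥ 2 t + 3`. -/
theorem base (m t : ℕ) (h : t + 3 ≤ m) : Pool.JM.ND.Bd (m + t) t m.factorial := by
  intro A hA
  rcases Nat.lt_or_ge m 4 with hm | hm
  · obtain rfl : t = 0 := by omega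
    obtain rfl : m = 3 := by omega
    have := card_le_univ A
    rwa [Fintype.card_perm, Fintype.card_fin] at this
  · obtain ⟨K, u, hK, h0, hP⟩ := thr m hm
    obtain ⟨h1, h2⟩ := Pool.JM.reduce (t := t) (by omega) (by omega) (by omega) u h0 hP
    exact Pool.JM.bound_of_top (by omega) (by omega) _ h1 (fun B hB hb => (h2 B hB hb).le) A hA

/-- **The bound near the diagonal.** -/
theorem result (n t r : ℕ) (hr : r ≤ t) (ht : t ≤ n) (hn : 2 * t + 3 ≤ n + r)
    (A : Finset (Perm (Fin n)))
    (hA : ∀ σ ∈ A, ∀ τ ∈ A, t ≤ (univ.filter (fun i : Fin n => σ i = τ i)).card) :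
    t.choose r * A.card ≤ n.choose r * (n - t).factorial := by
  obtain ⟨s, rfl⟩ : ∃ s, t = s + r := ⟨t - r, by omega⟩
  obtain ⟨m, rfl⟩ : ∃ m, n = m + s + r := ⟨n - (s + r), by omega⟩
  have h1 := Pool.JM.ND.steps (base m s (by omega)) r A hA
  rwa [show m + s + r - (s + r) = m by omega]

end Pool.Agent.Results.MP_46fa68_co.NearDiagonal
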