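import Pool.Agent.Work.MP_46fa68_20.Big
import Pool.Agent.Work.MP_46fa68_h48.Small

/-!
# MP_46fa68_co: the maximum-sized `t`-intersecting families of permutations for `n ≥ 2 t + 3`

For every `t` and every `n ≥ 2 t + 3` the largest families of permutations of `n` points in which
any two members agree on at least `t` points are exactly the `t`-stars.  This is the frozen
statement `S08499` with `2 * t + 3 ≤ n` in place of `2 * t < n`.
-/

set_option autoImplicit false

namespace Pool.Agent.Results.MP_46fa68_co.TwoTPlusThree

/-- For `n ≥ 2 t + 3` the largest `t`-intersecting families of permutations of `n` points are exactly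
the `t`-stars. -/
theorem result :
    ∀ n t : ℕ, 2 * t + 3 ≤ n →
      ∀ F : Finset (Equiv.Perm (Fin n)),
        ((∀ σ ∈ F, ∀ τ ∈ F, t ≤ (Finset.univ.filter (fun i : Fin n => σ i = τ i)).card) ∧
          (∀ G : Finset (Equiv.Perm (Fin n)),
            (∀ σ ∈ G, ∀ τ ∈ G, t ≤ (Finset.univ.filter (fun i : Fin n => σ i = τ i)).card) →
              G.card ≤ F.card)) ↔
        ∃ a b : Fin t → Fin n, Function.Injective a ∧ Function.Injective b ∧
          F = Finset.univ.filter (fun σ : Equiv.Perm (Fin n) => ∀ k : Fin t, σ (a k) = b k) := by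
  intro n t hn F
  refine Pool.JM.final_of_threshold (fun m h4 => ?_) n t hn F
  rcases Nat.lt_or_ge m 21 with h | h
  · exact Pool.JM.threshold_small m h4 (by omega)
  · exact Pool.JM.threshold_ge h

end Pool.Agent.Results.MP_46fa68_co.TwoTPlusThree
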